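import Pool.Agent.Q16.StD.Local
import Pool.Agent.H305R2.MertensE

/-!
# Size of the local densities
-/

set_option autoImplicit false

namespace Pool.Agent.Q16.StD

open Finset Filter Topology

/-- Mertens' product. -/
noncomputable def V (x : ℕ) : ℝ := ∏ p ∈ (Finset.Icc 1 x).filter Nat.Prime, (1 - (p : ℝ)⁻¹)

theorem factor_bounds {p : ℕ} (hp : p.Prime) : 0 < 1 - (p : ℝ)⁻¹ ∧ 1 - (p : ℝ)⁻¹ ≤ 1 := by
  have h1 : (1 : ℝ) < p := by exact_mod_cast hp.one_lt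
  have h2 : (p : ℝ)⁻¹ < 1 := inv_lt_one_of_one_lt₀ h1
  have h3 : 0 < (p : ℝ)⁻¹ := by positivity
  constructor <;> linarith

theorem V_pos (x : ℕ) : 0 < V x :=
  Finset.prod_pos fun p hp => (factor_bounds (Finset.mem_filter.1 hp).2).1

theorem V_anti {x y : ℕ} (h : x ≤ y) : V y ≤ V x := by
  unfold V
  refine Finset.prod_le_prod_of_subset_of_le_one
    (Finset.filter_subset_filter _ (Finset.Icc_subset_Icc_right h)) ?_ ?_
  · exact fun p hp => (factor_bounds (Finset.mem_filter.1 hp).2).1.le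
  · exact fun p hp _ => (factor_bounds (Finset.mem_filter.1 hp).2).2

theorem V_le_one (x : ℕ) : V x ≤ 1 := by
  have := V_anti (Nat.zero_le x)
  simpa [V] using this

theorem V_lim : Tendsto (fun N : ℕ => V N * Real.log N) atTop
    (𝓝 (Real.exp (-Real.eulerMascheroniConstant))) := by
  have h := H305R2.mertens_three.inv₀ (Real.exp_pos _).ne'
  rw [← Real.exp_neg] at h
  refine h.congr fun N => ?_
  unfold V
  rw [inv_div, Finset.prod_inv_distrib, div_inv_eq_mul, mul_comm]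

theorem log_pos_nat {r : ℕ} (hr : 2 ≤ r) : 0 < Real.log r :=
  Real.log_pos (by exact_mod_cast hr)

theorem V_upper : ∃ C : ℝ, 0 < C ∧ ∀ r : ℕ, 2 ≤ r → V r ≤ C / Real.log r := by
  obtain ⟨g, hg⟩ : ∃ g, g = Real.exp (-Real.eulerMascheroniConstant) := ⟨_, rfl⟩
  have hg0 : 0 < g := by rw [hg]; exact Real.exp_pos _
  have h := V_lim
  rw [← hg] at h
  obtain ⟨N, hN⟩ := eventually_atTop.1 ((tendsto_order.1 h).2 (g + 1) (by linarith))
  refine ⟨g + 1 + |Real.log N|, by positivity, fun r hr => ?_⟩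
  have hl := log_pos_nat hr
  rw [le_div_iff₀ hl]
  rcases le_or_gt N r with h1 | h1
  · have := hN r h1
    have := abs_nonneg (Real.log N)
    linarith
  · have h2 : Real.log r ≤ Real.log N :=
      Real.log_le_log (by positivity) (by exact_mod_cast h1.le)
    have h3 := V_le_one r
    have h4 := le_abs_self (Real.log N)
    have h5 : V r * Real.log r ≤ 1 * Real.log r := mul_le_mul_of_nonneg_right h3 hl.le
    linarith

theorem V_lower : ∃ C : ℝ, 0 < C ∧ ∀ K : ℕ, 1 ≤ K → (V K)⁻¹ ≤ C * (1 + Real.log K) := by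
  obtain ⟨g, hg⟩ : ∃ g, g = Real.exp (-Real.eulerMascheroniConstant) := ⟨_, rfl⟩
  have hg0 : 0 < g := by rw [hg]; exact Real.exp_pos _
  have h := V_lim
  rw [← hg] at h
  obtain ⟨N, hN⟩ := eventually_atTop.1 ((tendsto_order.1 h).1 (g / 2) (by linarith))
  refine ⟨2 / g + (V N)⁻¹, by have := V_pos N; positivity, fun K hK => ?_⟩
  have hl : 0 ≤ Real.log K := Real.log_natCast_nonneg K
  have hVN : 0 < (V N)⁻¹ := inv_pos.2 (V_pos N)
  have hVK := V_pos K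
  rcases le_or_gt N K with h1 | h1
  · have h2 := hN K h1
    have h3 : (V K)⁻¹ ≤ 2 / g * Real.log K := by
      rw [inv_le_iff_one_le_mul₀ hVK, div_mul_eq_mul_div, mul_comm, mul_div_assoc',
        one_le_div hg0]
      linarith
    have h4 : 0 < 2 / g := by positivity
    nlinarith
  · have h2 : (V K)⁻¹ ≤ (V N)⁻¹ := inv_anti₀ (V_pos N) (V_anti h1.le)
    have h4 : 0 < 2 / g := by positivity
    nlinarith

theorem V_split (K r : ℕ) : V (K + r) = V K * ∏ p ∈ Sp K r, (1 - (p : ℝ)⁻¹) := by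
  unfold V Sp
  rw [← Finset.prod_union]
  · congr 1
    ext p
    simp only [Finset.mem_filter, Finset.mem_union, Finset.mem_Icc, Finset.mem_Ioc]
    constructor
    · rintro ⟨⟨h1, h2⟩, h3⟩
      rcases le_or_gt p K with h4 | h4
      · exact Or.inl ⟨⟨h1, h4⟩, h3⟩
      · exact Or.inr ⟨⟨h4, h2⟩, h3⟩
    · rintro (⟨⟨h1, h2⟩, h3⟩ | ⟨⟨h1, h2⟩, h3⟩)
      · exact ⟨⟨h1, by omega⟩, h3⟩
      · exact ⟨⟨by omega, h2⟩, h3⟩
  · rw [Finset.disjoint_left]
    intro p hp hq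
    simp only [Finset.mem_filter, Finset.mem_Icc, Finset.mem_Ioc] at hp hq
    omega

theorem W_nonneg (K r : ℕ) : 0 ≤ W K r := by
  refine Finset.prod_nonneg fun p hp => ?_
  have h := mem_Sp.1 hp
  have hp0 : (0 : ℝ) < p := by exact_mod_cast h.2.pos
  have : (K : ℝ) / p ≤ 1 := by
    rw [div_le_one hp0]; exact_mod_cast h.1.1.le
  linarith

theorem W_le (K r : ℕ) : W K r ≤ (V (K + r) / V K) ^ K := by
  rw [V_split, mul_div_cancel_left₀ _ (V_pos K).ne', ← Finset.prod_pow]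
  unfold W
  refine Finset.prod_le_prod ?_ ?_
  · intro p hp
    have h := mem_Sp.1 hp
    have hp0 : (0 : ℝ) < p := by exact_mod_cast h.2.pos
    have : (K : ℝ) / p ≤ 1 := by
      rw [div_le_one hp0]; exact_mod_cast h.1.1.le
    linarith
  · intro p hp
    have h := mem_Sp.1 hp
    have h1 := (factor_bounds h.2).1
    have h2 := one_add_mul_le_pow (a := -(p : ℝ)⁻¹) (by linarith) K
    calc 1 - (K : ℝ) / p = 1 + K * -(p : ℝ)⁻¹ := by ring
      _ ≤ (1 + -(p : ℝ)⁻¹) ^ K := h2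
      _ = _ := by ring

theorem W_one (r : ℕ) : W 1 r = V (1 + r) := by
  rw [V_split]
  have : V 1 = 1 := by
    unfold V
    have : (Finset.Icc 1 1).filter Nat.Prime = ∅ := by decide
    rw [this, Finset.prod_empty]
  rw [this, one_mul]
  unfold W
  refine Finset.prod_congr rfl fun p _ => ?_
  simp

theorem factor_lower {k p : ℕ} (hkp : k < p) (hp : p.Prime) :
    (1 - (p : ℝ)⁻¹) ^ k * Real.exp (-((k : ℝ) ^ 2 * (((p - k : ℕ) : ℝ) ^ 2)⁻¹)) ≤
      1 - (k : ℝ) / p := by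
  have hp0 : (0 : ℝ) < p := by exact_mod_cast hp.pos
  have hk0 : (0 : ℝ) ≤ k := by positivity
  have hkp' : (k : ℝ) < p := by exact_mod_cast hkp
  have hf := (factor_bounds hp).1
  have hcast : ((p - k : ℕ) : ℝ) = (p : ℝ) - k := by rw [Nat.cast_sub hkp.le]
  rw [hcast]
  have hpk : 0 < (p : ℝ) - k := by linarith
  -- Bernoulli
  have h1 : (1 - (p : ℝ)⁻¹) ^ k * (1 + (k : ℝ) / p) ≤ 1 := by
    have h2 := one_add_mul_le_pow (a := (p : ℝ)⁻¹ / (1 - (p : ℝ)⁻¹)) (by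
      have : 0 < (p : ℝ)⁻¹ / (1 - (p : ℝ)⁻¹) := by positivity
      linarith) k
    have h3 : 1 + (p : ℝ)⁻¹ / (1 - (p : ℝ)⁻¹) = (1 - (p : ℝ)⁻¹)⁻¹ := by
      rw [← mul_eq_one_iff_eq_inv₀ hf.ne', add_mul, div_mul_cancel₀ _ hf.ne']; ring
    rw [h3] at h2
    have h4 : 1 + (k : ℝ) / p ≤ 1 + k * ((p : ℝ)⁻¹ / (1 - (p : ℝ)⁻¹)) := by
      have : (p : ℝ)⁻¹ ≤ (p : ℝ)⁻¹ / (1 - (p : ℝ)⁻¹) := by
        rw [le_div_iff₀ hf]
        have : 0 < (p : ℝ)⁻¹ := by positivity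
        nlinarith
      have h5 := mul_le_mul_of_nonneg_left this hk0
      rw [div_eq_mul_inv]; linarith
    calc (1 - (p : ℝ)⁻¹) ^ k * (1 + (k : ℝ) / p) ≤
        (1 - (p : ℝ)⁻¹) ^ k * ((1 - (p : ℝ)⁻¹)⁻¹) ^ k :=
          mul_le_mul_of_nonneg_left (h4.trans h2) (by positivity)
      _ = 1 := by rw [← mul_pow, mul_inv_cancel₀ hf.ne', one_pow]
  -- exponential
  have h5 : Real.exp (-((k : ℝ) ^ 2 * (((p : ℝ) - k) ^ 2)⁻¹)) ≤ 1 - ((k : ℝ) / p) ^ 2 := by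
    have h6 : 0 < 1 - ((k : ℝ) / p) ^ 2 := by
      have : (k : ℝ) / p < 1 := by rw [div_lt_one hp0]; exact hkp'
      have : 0 ≤ (k : ℝ) / p := by positivity
      nlinarith
    rw [Real.exp_neg, inv_le_comm₀ (Real.exp_pos _) h6]
    have h7 := Real.add_one_le_exp ((k : ℝ) ^ 2 * (((p : ℝ) - k) ^ 2)⁻¹)
    refine le_trans ?_ h7
    have h8 : (1 - ((k : ℝ) / p) ^ 2)⁻¹ = 1 + (k : ℝ) ^ 2 / (((p : ℝ) - k) * (p + k)) := by
      have : (p : ℝ) + k ≠ 0 := by positivity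
      have e : 1 - ((k : ℝ) / p) ^ 2 = (((p : ℝ) - k) * (p + k)) / p ^ 2 := by
        field_simp; ring
      rw [e, inv_div]
      field_simp
      ring
    rw [h8, div_eq_mul_inv]
    have h9 : (((p : ℝ) - k) * (p + k))⁻¹ ≤ (((p : ℝ) - k) ^ 2)⁻¹ := by
      apply inv_anti₀ (by positivity)
      nlinarith
    have := mul_le_mul_of_nonneg_left h9 (by positivity : (0 : ℝ) ≤ (k : ℝ) ^ 2)
    linarith
  have h10 : 0 ≤ (k : ℝ) / p := by positivity
  calc (1 - (p : ℝ)⁻¹) ^ k * Real.exp (-((k : ℝ) ^ 2 * (((p : ℝ) - k) ^ 2)⁻¹))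
      ≤ (1 - (p : ℝ)⁻¹) ^ k * (1 - ((k : ℝ) / p) ^ 2) :=
        mul_le_mul_of_nonneg_left h5 (by positivity)
    _ = ((1 - (p : ℝ)⁻¹) ^ k * (1 + (k : ℝ) / p)) * (1 - (k : ℝ) / p) := by ring
    _ ≤ 1 * (1 - (k : ℝ) / p) := by
        refine mul_le_mul_of_nonneg_right h1 ?_
        have : (k : ℝ) / p < 1 := by rw [div_lt_one hp0]; exact hkp'
        linarith
    _ = _ := one_mul _

theorem W_ge (k r : ℕ) : V (k + r) ^ k * Real.exp (-(2 * (k : ℝ) ^ 2)) ≤ W k r := by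
  have h1 : (∏ p ∈ Sp k r, (1 - (p : ℝ)⁻¹)) ^ k *
      ∏ p ∈ Sp k r, Real.exp (-((k : ℝ) ^ 2 * (((p - k : ℕ) : ℝ) ^ 2)⁻¹)) ≤ W k r := by
    rw [← Finset.prod_pow, ← Finset.prod_mul_distrib]
    unfold W
    refine Finset.prod_le_prod ?_ ?_
    · intro p hp
      have := (factor_bounds (mem_Sp.1 hp).2).1
      positivity
    · intro p hp
      exact factor_lower (mem_Sp.1 hp).1.1 (mem_Sp.1 hp).2
  refine le_trans ?_ h1
  refine mul_le_mul ?_ ?_ (Real.exp_pos _).le ?_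
  · refine pow_le_pow_left₀ (V_pos _).le ?_ k
    rw [V_split]
    have h2 : 0 ≤ ∏ p ∈ Sp k r, (1 - (p : ℝ)⁻¹) :=
      Finset.prod_nonneg fun p hp => (factor_bounds (mem_Sp.1 hp).2).1.le
    calc V k * _ ≤ 1 * _ := mul_le_mul_of_nonneg_right (V_le_one k) h2
      _ = _ := one_mul _
  · rw [← Real.exp_sum, Real.exp_le_exp, Finset.sum_neg_distrib, neg_le_neg_iff,
      ← Finset.mul_sum, mul_comm (2 : ℝ)]
    refine mul_le_mul_of_nonneg_left ?_ (by positivity)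
    have h3 : ∑ p ∈ Sp k r, (((p - k : ℕ) : ℝ) ^ 2)⁻¹ ≤
        ∑ m ∈ Finset.Ioo 0 (r + 1), ((m : ℝ) ^ 2)⁻¹ := by
      have h4 : ∑ p ∈ Sp k r, (((p - k : ℕ) : ℝ) ^ 2)⁻¹ =
          ∑ m ∈ (Sp k r).image (fun p => p - k), ((m : ℝ) ^ 2)⁻¹ := by
        rw [Finset.sum_image]
        intro p hp q hq he
        have h5 := mem_Sp.1 hp
        have h6 := mem_Sp.1 hq
        simp only at he
        omega
      rw [h4]
      refine Finset.sum_le_sum_of_subset_of_nonneg ?_ (fun _ _ _ => by positivity)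
      intro m hm
      obtain ⟨p, hp, rfl⟩ := Finset.mem_image.1 hm
      have h5 := mem_Sp.1 hp
      rw [Finset.mem_Ioo]; omega
    have h5 := sum_Ioo_inv_sq_le (α := ℝ) 0 (r + 1)
    have h6 : (2 : ℝ) / ((0 : ℕ) + 1) = 2 := by norm_num
    rw [h6] at h5
    exact h3.trans h5
  · have : 0 ≤ ∏ p ∈ Sp k r, (1 - (p : ℝ)⁻¹) :=
      Finset.prod_nonneg fun p hp => (factor_bounds (mem_Sp.1 hp).2).1.le
    positivity

end Pool.Agent.Q16.StD
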