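import Mathlib

/-!
# The divisibility condition for Steiner systems, in terms of `N = n - r`, `K = q - r`
-/

set_option autoImplicit false

namespace Pool.Agent.Q16.StD

open Finset

/-- `(D)` for `(N + r, K + r, r)`. -/
def DD (r K N : ℕ) : Prop := ∀ j, 1 ≤ j → j ≤ r → (K + j).choose j ∣ (N + j).choose j

theorem conditionD_iff (r K N : ℕ) :
    (∀ i < r, (K + r - i).choose (r - i) ∣ (N + r - i).choose (r - i)) ↔ DD r K N := by
  constructor
  · intro h j h1 h2
    have := h (r - j) (by omega)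
    rwa [show K + r - (r - j) = K + j by omega, show N + r - (r - j) = N + j by omega,
      show r - (r - j) = j by omega] at this
  · intro h i hi
    have := h (r - i) (by omega) (by omega)
    rwa [show K + r - i = K + (r - i) by omega, show N + r - i = N + (r - i) by omega]

theorem choose_modEq (M j : ℕ) {a b : ℕ} (h : a ≡ b [MOD j.factorial * M]) :
    (a + j).choose j ≡ (b + j).choose j [MOD M] := by
  have h1 : ∀ i : ℕ, (a + 1).ascFactorial i ≡ (b + 1).ascFactorial i [MOD j.factorial * M] := by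
    intro i
    induction i with
    | zero => simp; rfl
    | succ i ih =>
      rw [Nat.ascFactorial_succ, Nat.ascFactorial_succ]
      exact ((h.add_right 1).add_right i).mul ih
  have h2 := h1 j
  rw [Nat.ascFactorial_eq_factorial_mul_choose, Nat.ascFactorial_eq_factorial_mul_choose] at h2
  exact Nat.ModEq.mul_left_cancel' (Nat.factorial_ne_zero j) h2

/-- A period of `DD r K`. -/
def per (r K : ℕ) : ℕ := ∏ j ∈ Finset.Icc 1 r, (j.factorial * (K + j).choose j)

theorem per_pos (r K : ℕ) : 0 < per r K := by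
  refine Finset.prod_pos fun j _ => ?_
  exact Nat.mul_pos (Nat.factorial_pos j) (Nat.choose_pos (by omega))

theorem DD_congr {r K T a b : ℕ} (hT : per r K ∣ T) (h : a ≡ b [MOD T]) :
    DD r K a ↔ DD r K b := by
  have key : ∀ j, 1 ≤ j → j ≤ r →
      (a + j).choose j ≡ (b + j).choose j [MOD (K + j).choose j] := by
    intro j h1 h2
    apply choose_modEq
    apply h.of_dvd
    refine dvd_trans ?_ hT
    exact Finset.dvd_prod_of_mem (fun j => j.factorial * (K + j).choose j)
      (Finset.mem_Icc.2 ⟨h1, h2⟩)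
  unfold DD
  refine forall_congr' fun j => forall_congr' fun h1 => forall_congr' fun h2 => ?_
  exact (key j h1 h2).dvd_iff dvd_rfl

theorem DD_periodic {r K T : ℕ} (hT : per r K ∣ T) : Function.Periodic (DD r K) T := by
  intro N
  rw [eq_iff_iff]
  exact DD_congr hT (by simp [Nat.ModEq])

/-- `k ≤ K ≤ Q` and `DD`. -/
def PQ (r k Q N : ℕ) : Prop := ∃ K, k ≤ K ∧ K ≤ Q ∧ DD r K N

/-- `k ≤ K < N` and `DD`. -/
def BB (r k N : ℕ) : Prop := ∃ K, k ≤ K ∧ K < N ∧ DD r K N

/-- A period of `PQ r k Q`. -/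
def perQ (r Q : ℕ) : ℕ := ∏ K ∈ Finset.range (Q + 1), per r K

theorem perQ_pos (r Q : ℕ) : 0 < perQ r Q := Finset.prod_pos fun K _ => per_pos r K

theorem PQ_periodic (r k Q : ℕ) : Function.Periodic (PQ r k Q) (perQ r Q) := by
  intro N
  rw [eq_iff_iff]
  have key : ∀ K, K ≤ Q → (DD r K (N + perQ r Q) ↔ DD r K N) := fun K hK =>
    DD_congr (Finset.dvd_prod_of_mem (per r) (Finset.mem_range.2 (by omega : K < Q + 1)))
      (by simp [Nat.ModEq, perQ])
  unfold PQ
  constructor
  · rintro ⟨K, h1, h2, h3⟩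
    exact ⟨K, h1, h2, (key K h2).1 h3⟩
  · rintro ⟨K, h1, h2, h3⟩
    exact ⟨K, h1, h2, (key K h2).2 h3⟩

/-- The prime condition. -/
theorem DD_imp {r K N : ℕ} (hK : 1 ≤ K) (h : DD r K N) {p : ℕ} (hp : p.Prime) (h1 : K < p)
    (h2 : p ≤ K + r) : K ≤ N % p := by
  by_contra hcon
  push Not at hcon
  have := Fact.mk hp
  obtain ⟨j, rfl⟩ : ∃ j, p = K + j := ⟨p - K, by omega⟩
  have h3 := h j (by omega) (by omega)
  have h4 : (K + j) ∣ (K + j).choose j := hp.dvd_choose_self (by omega) (by omega)
  have h5 : (K + j) ∣ (N + j).choose j := h4.trans h3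
  have h6 := Choose.choose_modEq_choose_mod_mul_choose_div_nat (n := N + j) (k := j) (p := K + j)
  have h7 : j / (K + j) = 0 := Nat.div_eq_of_lt (by omega)
  have h8 : j % (K + j) = j := Nat.mod_eq_of_lt (by omega)
  have h9 : (N + j) % (K + j) = N % (K + j) + j := by
    rw [Nat.add_mod, h8]
    exact Nat.mod_eq_of_lt (by omega)
  rw [h7, h8, h9, Nat.choose_zero_right, mul_one] at h6
  have h10 : (K + j) ∣ (N % (K + j) + j).choose j := (h6.dvd_iff dvd_rfl).1 h5
  have h11 : (K + j) ∣ (N % (K + j) + j).factorial := by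
    rw [← Nat.choose_mul_factorial_mul_factorial (Nat.le_add_left j (N % (K + j)))]
    exact dvd_mul_of_dvd_left (dvd_mul_of_dvd_left h10 _) _
  have := (hp.dvd_factorial).1 h11
  omega

/-- A sufficient condition for `DD`. -/
theorem DD_of_coprime {r K N : ℕ} (hKN : K ≤ N)
    (h : ∀ p : ℕ, p.Prime → p ≤ K + r → ¬ p ∣ N.choose K) : DD r K N := by
  intro j h1 h2
  have e : (N + j).choose j * N.choose K = (N + j).choose (j + K) * (j + K).choose j := by
    have := Nat.choose_mul (n := N + j) (k := j + K) (s := j) (by omega)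
    rw [show N + j - j = N by omega, show j + K - j = K by omega] at this
    exact this.symm
  have h3 : (K + j).choose j ∣ (N + j).choose j * N.choose K := by
    rw [e, add_comm K j]; exact dvd_mul_left _ _
  refine Nat.Coprime.dvd_of_dvd_mul_right ?_ h3
  refine Nat.Coprime.symm (Nat.coprime_of_dvd ?_)
  intro p hp h4 h5
  refine h p hp ?_ h4
  have h6 : p ∣ (K + j).factorial := by
    rw [← Nat.choose_mul_factorial_mul_factorial (Nat.le_add_left j K)]
    exact dvd_mul_of_dvd_left (dvd_mul_of_dvd_left h5 _) _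
  have := (hp.dvd_factorial).1 h6
  omega

/-- Primes above `K` not dividing `N.choose K`. -/
theorem not_dvd_choose {K N p : ℕ} (hp : p.Prime) (h1 : K < p) (h2 : K ≤ N % p) :
    ¬ p ∣ N.choose K := by
  have := Fact.mk hp
  intro h
  have h6 := Choose.choose_modEq_choose_mod_mul_choose_div_nat (n := N) (k := K) (p := p)
  rw [Nat.div_eq_of_lt h1, Nat.mod_eq_of_lt h1, Nat.choose_zero_right, mul_one] at h6
  have h10 : p ∣ (N % p).choose K := (h6.dvd_iff dvd_rfl).1 h
  have h11 : p ∣ (N % p).factorial := by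
    rw [← Nat.choose_mul_factorial_mul_factorial h2]
    exact dvd_mul_of_dvd_left (dvd_mul_of_dvd_left h10 _) _
  have := (hp.dvd_factorial).1 h11
  have := Nat.mod_lt N hp.pos
  omega

theorem DD_of_residues {r K N : ℕ} (hKN : K ≤ N)
    (h1 : N ≡ K [MOD K.factorial * K.factorial])
    (h2 : ∀ p : ℕ, p.Prime → K < p → p ≤ K + r → K ≤ N % p) : DD r K N := by
  apply DD_of_coprime hKN
  intro p hp hpr hdvd
  rcases le_or_gt p K with hpK | hpK
  · obtain ⟨N', rfl⟩ : ∃ N', N = N' + K := ⟨N - K, by omega⟩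
    have h3 : N' ≡ 0 [MOD K.factorial * K.factorial] := by
      have : N' + K ≡ 0 + K [MOD K.factorial * K.factorial] := by simpa using h1
      exact Nat.ModEq.add_right_cancel' K this
    have h4 := choose_modEq K.factorial K h3
    rw [zero_add, Nat.choose_self] at h4
    have h5 : p ∣ K.factorial := (hp.dvd_factorial).2 hpK
    have h6 := ((h4.of_dvd h5).dvd_iff dvd_rfl).1 hdvd
    exact hp.one_lt.ne' (Nat.dvd_one.1 h6)
  · exact not_dvd_choose hp hpK (h2 p hp hpK hpr) hdvd

end Pool.Agent.Q16.StD
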