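import Pool.Agent.Q16.StD.Basic
import Pool.Agent.Q129.Stn.Pairs

/-!
# Existence of the densities
-/

set_option autoImplicit false

namespace Pool.Agent.Q16.StD

open Finset Filter Topology Pool.Agent.Q129.Stn

theorem periodic_density (P : ℕ → Prop) [DecidablePred P] (a : ℕ) (ha : 0 < a)
    (hP : Function.Periodic P a) :
    Tendsto (fun N : ℕ => (Nat.count P N : ℝ) / N) atTop (𝓝 ((Nat.count P a : ℝ) / a)) := by
  have hmul : ∀ k, Nat.count P (a * k) = k * Nat.count P a := by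
    intro k
    induction k with
    | zero => simp
    | succ k ih =>
      rw [Nat.mul_succ, Nat.count_add, ih, Nat.succ_mul]
      congr 1
      rw [Nat.count_eq_card_filter_range, Nat.count_eq_card_filter_range]
      congr 1
      refine Finset.filter_congr fun m _ => ?_
      have := hP.nat_mul k m
      rw [eq_iff_iff] at this
      rw [add_comm, mul_comm]
      simpa using this
  set c := Nat.count P a with hc
  have ha0 : (0 : ℝ) < a := by exact_mod_cast ha
  have hlim : Tendsto (fun N : ℕ => (c : ℝ) / (N : ℝ)) atTop (𝓝 0) :=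
    tendsto_const_div_atTop_nhds_zero_nat _
  rw [tendsto_iff_norm_sub_tendsto_zero]
  refine squeeze_zero' (Eventually.of_forall fun N => norm_nonneg _) ?_ hlim
  filter_upwards [eventually_ge_atTop 1] with N hN
  have hN0 : (0 : ℝ) < N := by exact_mod_cast hN
  set k := N / a with hk
  have h1 : Nat.count P (a * k) ≤ Nat.count P N := Nat.count_monotone _ (Nat.mul_div_le _ _)
  have h2 : Nat.count P N ≤ Nat.count P (a * (k + 1)) :=
    Nat.count_monotone _ (Nat.lt_mul_div_succ _ ha).le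
  rw [hmul] at h1 h2
  have h1R : (k : ℝ) * c ≤ (Nat.count P N : ℝ) := by exact_mod_cast h1
  have h2R : (Nat.count P N : ℝ) ≤ ((k : ℝ) + 1) * c := by exact_mod_cast h2
  have k1 : (k : ℝ) ≤ (N : ℝ) / a := Nat.cast_div_le
  have k2 : (N : ℝ) / a ≤ (k : ℝ) + 1 := by
    rw [div_le_iff₀ ha0]
    have : N < a * (k + 1) := Nat.lt_mul_div_succ _ ha
    have h3 : (N : ℝ) ≤ (a : ℝ) * ((k : ℝ) + 1) := by exact_mod_cast this.le
    linarith
  have hc0 : (0 : ℝ) ≤ c := by positivity
  have e : (Nat.count P N : ℝ) / N - (c : ℝ) / a = ((Nat.count P N : ℝ) - (N : ℝ) / a * c) / N := by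
    field_simp
  rw [e, Real.norm_eq_abs, abs_div, abs_of_pos hN0]
  refine div_le_div_of_nonneg_right ?_ hN0.le
  rw [abs_le]
  constructor <;> nlinarith

/-- The tail function. -/
noncomputable def eta (Q : ℕ) : ℝ := (12 + 4 * Real.log Q) / Q

theorem eta_tendsto : Tendsto eta atTop (𝓝 0) := by
  unfold eta
  have h1 : Tendsto (fun Q : ℕ => (12 : ℝ) / Q) atTop (𝓝 0) :=
    tendsto_const_div_atTop_nhds_zero_nat _
  have h2 : Tendsto (fun Q : ℕ => 4 * (Real.log Q / Q)) atTop (𝓝 (4 * 0)) := by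
    refine Tendsto.const_mul _ ?_
    have := Real.tendsto_pow_log_div_mul_add_atTop 1 0 1 one_ne_zero
    simp only [pow_one, one_mul, add_zero] at this
    exact this.comp tendsto_natCast_atTop_atTop
  have h3 := h1.add h2
  simp only [mul_zero, add_zero] at h3
  refine h3.congr fun Q => ?_
  ring

/-- The remainder. -/
noncomputable def rem (N : ℕ) : ℝ := 10 * Real.sqrt N * (2 + Real.log N) ^ 2 / N

theorem rem_nonneg (N : ℕ) : 0 ≤ rem N := by unfold rem; positivity

theorem cube_bound {L : ℝ} (hL : 0 ≤ L) : (2 + L) ^ 3 ≤ 144 * Real.exp (L / 2) := by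
  have h1 : ((2 + L) / 2) ^ 3 / 6 ≤ Real.exp ((2 + L) / 2) := by
    have := Real.pow_div_factorial_le_exp ((2 + L) / 2) (by linarith) 3
    simpa [Nat.factorial] using this
  have h2 : Real.exp ((2 + L) / 2) = Real.exp 1 * Real.exp (L / 2) := by
    rw [← Real.exp_add]; ring_nf
  rw [h2] at h1
  have h3 : Real.exp 1 < 3 := Real.exp_one_lt_three
  have h4 : 0 < Real.exp (L / 2) := Real.exp_pos _
  nlinarith

theorem rem_tendsto : Tendsto rem atTop (𝓝 0) := by
  have hlog : Tendsto (fun N : ℕ => Real.log N) atTop atTop :=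
    Real.tendsto_log_atTop.comp tendsto_natCast_atTop_atTop
  have h1 : Tendsto (fun N : ℕ => 1440 / (2 + Real.log N)) atTop (𝓝 0) :=
    Tendsto.div_atTop tendsto_const_nhds (tendsto_atTop_add_const_left _ _ hlog)
  refine squeeze_zero' (Eventually.of_forall rem_nonneg) ?_ h1
  filter_upwards [eventually_ge_atTop 1] with N hN
  have hN1 : (1 : ℝ) ≤ N := by exact_mod_cast hN
  have hL : 0 ≤ Real.log N := Real.log_nonneg hN1
  have hc := cube_bound hL
  have hs : Real.exp (Real.log N / 2) = Real.sqrt N := by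
    rw [Real.exp_half, Real.exp_log (by linarith)]
  rw [hs] at hc
  have hS0 : 0 ≤ Real.sqrt N := Real.sqrt_nonneg _
  have hSS : Real.sqrt N * Real.sqrt N = N := Real.mul_self_sqrt (by linarith)
  unfold rem
  rw [div_le_div_iff₀ (by linarith) (by linarith)]
  calc 10 * Real.sqrt N * (2 + Real.log N) ^ 2 * (2 + Real.log N)
      = 10 * Real.sqrt N * (2 + Real.log N) ^ 3 := by ring
    _ ≤ 10 * Real.sqrt N * (144 * Real.sqrt N) := mul_le_mul_of_nonneg_left hc (by positivity)
    _ = 1440 * (Real.sqrt N * Real.sqrt N) := by ring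
    _ = 1440 * N := by rw [hSS]

/-- A set approximated by periodic sets has a density. -/
theorem exists_dens {B : ℕ → Prop} [DecidablePred B] {P : ℕ → ℕ → Prop}
    [∀ Q, DecidablePred (P Q)] {a : ℕ → ℕ} (ha : ∀ Q, 0 < a Q)
    (hP : ∀ Q, Function.Periodic (P Q) (a Q)) (c e ρ : ℕ → ℝ)
    (he : Tendsto e atTop (𝓝 0)) (hρ : Tendsto ρ atTop (𝓝 0))
    (h : ∀ Q X, 1 ≤ X → |(Nat.count B X : ℝ) - Nat.count (P Q) X| ≤ c Q + X * (e Q + ρ X)) :
    ∃ δ : ℝ, Tendsto (fun X : ℕ => (Nat.count B X : ℝ) / X) atTop (𝓝 δ) ∧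
      ∀ Q, |δ - (Nat.count (P Q) (a Q) : ℝ) / a Q| ≤ e Q := by
  obtain ⟨d, hd⟩ : ∃ d : ℕ → ℝ, ∀ Q, d Q = (Nat.count (P Q) (a Q) : ℝ) / a Q := ⟨_, fun _ => rfl⟩
  obtain ⟨f, hf⟩ : ∃ f : ℕ → ℝ, ∀ X, f X = (Nat.count B X : ℝ) / X := ⟨_, fun _ => rfl⟩
  obtain ⟨w, hw⟩ : ∃ w : ℕ → ℕ → ℝ, ∀ Q X, w Q X = c Q / X + ρ X +
      |(Nat.count (P Q) X : ℝ) / X - d Q| := ⟨_, fun _ _ => rfl⟩
  have hw0 : ∀ Q, Tendsto (w Q) atTop (𝓝 0) := by
    intro Q
    have h1 : Tendsto (fun X : ℕ => c Q / (X : ℝ)) atTop (𝓝 0) :=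
      tendsto_const_div_atTop_nhds_zero_nat _
    have h2 : Tendsto (fun X : ℕ => |(Nat.count (P Q) X : ℝ) / X - d Q|) atTop (𝓝 0) := by
      have := ((periodic_density (P Q) (a Q) (ha Q) (hP Q)).sub_const (d Q)).abs
      rw [← hd Q, sub_self, abs_zero] at this
      exact this
    have h3 := (h1.add hρ).add h2
    simp only [add_zero] at h3
    exact h3.congr fun X => (hw Q X).symm
  have hb : ∀ Q X, 1 ≤ X → |f X - d Q| ≤ w Q X + e Q := by
    intro Q X hX
    have hX0 : (0 : ℝ) < X := by exact_mod_cast hX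
    have h1 := h Q X hX
    have h2 : |f X - (Nat.count (P Q) X : ℝ) / X| ≤ c Q / X + (e Q + ρ X) := by
      rw [hf, ← sub_div, abs_div, abs_of_pos hX0, div_le_iff₀ hX0]
      refine h1.trans (le_of_eq ?_)
      field_simp
    calc |f X - d Q| ≤ |f X - (Nat.count (P Q) X : ℝ) / X| +
        |(Nat.count (P Q) X : ℝ) / X - d Q| := abs_sub_le _ _ _
      _ ≤ w Q X + e Q := by rw [hw]; linarith
  have hcauchy : CauchySeq f := by
    rw [Metric.cauchySeq_iff]
    intro ε hε
    obtain ⟨Q, hQ⟩ := ((tendsto_order.1 he).2 (ε / 4) (by linarith)).exists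
    obtain ⟨N, hN⟩ := eventually_atTop.1 ((tendsto_order.1 (hw0 Q)).2 (ε / 4) (by linarith))
    refine ⟨max 1 N, fun m hm n hn => ?_⟩
    have h1 := hb Q m (le_trans (le_max_left _ _) hm)
    have h2 := hb Q n (le_trans (le_max_left _ _) hn)
    have h3 := hN m (le_trans (le_max_right _ _) hm)
    have h4 := hN n (le_trans (le_max_right _ _) hn)
    rw [Real.dist_eq]
    calc |f m - f n| ≤ |f m - d Q| + |d Q - f n| := abs_sub_le _ _ _
      _ = |f m - d Q| + |f n - d Q| := by rw [abs_sub_comm (d Q)]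
      _ < ε := by linarith
  obtain ⟨δ, hδ⟩ := cauchySeq_tendsto_of_complete hcauchy
  refine ⟨δ, hδ.congr hf, fun Q => ?_⟩
  rw [← hd Q]
  have h1 : Tendsto (fun X => |f X - d Q|) atTop (𝓝 |δ - d Q|) := (hδ.sub_const _).abs
  have h2 : Tendsto (fun X => w Q X + e Q) atTop (𝓝 (0 + e Q)) := (hw0 Q).add_const _
  rw [zero_add] at h2
  refine le_of_tendsto_of_tendsto h1 h2 ?_
  filter_upwards [eventually_ge_atTop 1] with X hX
  exact hb Q X hX

open Classical in
theorem count_close {r k : ℕ} (hr : 2 ≤ r) (Q X : ℕ) :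
    |(Nat.count (BB r k) X : ℝ) - Nat.count (PQ r k Q) X| ≤
      (Q + 1 : ℕ) + ((pairsAbove (Q + 2) (X + 2)).card : ℝ) := by
  rw [Nat.count_eq_card_filter_range, Nat.count_eq_card_filter_range]
  set S := (range X).filter (BB r k) with hS
  set R := (range X).filter (PQ r k Q) with hR
  set D1 := (pairsAbove (Q + 2) (X + 2)).image (fun p => p.1 - 2) with hD1
  have h1 : S ⊆ R ∪ D1 := by
    intro N hN
    rw [hS, Finset.mem_filter, Finset.mem_range] at hN
    obtain ⟨hNX, K, hk, hKN, hD⟩ := hN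
    rw [Finset.mem_union]
    rcases le_or_gt K Q with hKQ | hKQ
    · left
      rw [hR, Finset.mem_filter, Finset.mem_range]
      exact ⟨hNX, K, hk, hKQ, hD⟩
    · right
      rw [hD1, Finset.mem_image]
      refine ⟨(N + 2, K + 2), ?_, by simp⟩
      simp only [pairsAbove, Finset.mem_filter, Finset.mem_product, Finset.mem_Icc]
      refine ⟨⟨⟨by omega, by omega⟩, by omega, by omega⟩, by omega, ?_⟩
      rw [← divisible_iff (by omega) (by omega)]
      intro i hi
      interval_cases i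
      · simpa using hD 2 (by norm_num) hr
      · simpa using hD 1 le_rfl (by omega)
  have h2 : R ⊆ S ∪ Finset.range (Q + 1) := by
    intro N hN
    rw [hR, Finset.mem_filter, Finset.mem_range] at hN
    obtain ⟨hNX, K, hk, hKQ, hD⟩ := hN
    rw [Finset.mem_union, Finset.mem_range]
    rcases le_or_gt N K with hKN | hKN
    · right; omega
    · left
      rw [hS, Finset.mem_filter, Finset.mem_range]
      exact ⟨hNX, K, hk, hKN, hD⟩
  have h3 : S.card ≤ R.card + (pairsAbove (Q + 2) (X + 2)).card :=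
    (Finset.card_le_card h1).trans ((Finset.card_union_le _ _).trans
      (Nat.add_le_add_left Finset.card_image_le _))
  have h4 : R.card ≤ S.card + (Q + 1) := by
    refine (Finset.card_le_card h2).trans ((Finset.card_union_le _ _).trans ?_)
    rw [Finset.card_range]
  have h5 : (S.card : ℝ) ≤ R.card + (pairsAbove (Q + 2) (X + 2)).card := by exact_mod_cast h3
  have h6 : (R.card : ℝ) ≤ S.card + (Q + 1 : ℕ) := by exact_mod_cast h4
  have h7 : (0 : ℝ) ≤ (pairsAbove (Q + 2) (X + 2)).card := by positivity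
  have h8 : (0 : ℝ) ≤ (Q + 1 : ℕ) := by positivity
  rw [abs_le]
  constructor <;> linarith

open Classical in
theorem exists_delta {r : ℕ} (hr : 2 ≤ r) (k : ℕ) :
    ∃ δ : ℝ, Tendsto (fun X : ℕ => (Nat.count (BB r k) X : ℝ) / X) atTop (𝓝 δ) ∧
      ∀ Q, |δ - (Nat.count (PQ r k Q) (perQ r Q) : ℝ) / perQ r Q| ≤ eta (Q + 2) := by
  refine exists_dens (fun Q => perQ_pos r Q) (fun Q => PQ_periodic r k Q)
    (fun Q => (Q + 1 : ℕ) + 2 * eta (Q + 2)) (fun Q => eta (Q + 2)) (fun X => 3 * rem (X + 2))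
    (eta_tendsto.comp (tendsto_add_atTop_nat 2)) ?_ ?_
  · have := (rem_tendsto.comp (tendsto_add_atTop_nat 2)).const_mul 3
    simpa using this
  · intro Q X hX
    have h1 := count_close (k := k) hr Q X
    have h2 := count_pairs (Q + 2) (X + 2) (by omega) (by omega)
    have hX0 : (1 : ℝ) ≤ X := by exact_mod_cast hX
    have h3 : ((X + 2 : ℕ) : ℝ) * rem (X + 2) =
        10 * Real.sqrt (X + 2 : ℕ) * (2 + Real.log (X + 2 : ℕ)) ^ 2 := by
      unfold rem
      rw [mul_div_cancel₀]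
      positivity
    have h4 : ((X + 2 : ℕ) : ℝ) * rem (X + 2) ≤ X * (3 * rem (X + 2)) := by
      have := rem_nonneg (X + 2)
      push_cast
      nlinarith
    have h5 : ((X + 2 : ℕ) : ℝ) * ((12 + 4 * Real.log (Q + 2 : ℕ)) / (Q + 2 : ℕ)) =
        X * eta (Q + 2) + 2 * eta (Q + 2) := by
      unfold eta
      push_cast; ring
    rw [h5, ← h3] at h2
    calc _ ≤ _ := h1
      _ ≤ (Q + 1 : ℕ) + (X * eta (Q + 2) + 2 * eta (Q + 2) + X * (3 * rem (X + 2))) := by linarith
      _ = _ := by ring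

end Pool.Agent.Q16.StD
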