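import Pool.Agent.Q16.StD.Dens

/-!
# Local densities
-/

set_option autoImplicit false

namespace Pool.Agent.Q16.StD

open Finset Filter Topology

theorem count_mul {a b : ℕ} (ha : 0 < a) (hb : 0 < b) (hab : a.Coprime b) {P R : ℕ → Prop}
    [DecidablePred P] [DecidablePred R] (hP : Function.Periodic P a)
    (hR : Function.Periodic R b) :
    Nat.count (fun N => P N ∧ R N) (a * b) = Nat.count P a * Nat.count R b := by
  rw [Nat.count_eq_card_filter_range, Nat.count_eq_card_filter_range,
    Nat.count_eq_card_filter_range, ← Finset.card_product]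
  have hPm : ∀ N, P (N % a) ↔ P N := fun N => by
    rw [← eq_iff_iff]; exact hP.map_mod_nat N
  have hRm : ∀ N, R (N % b) ↔ R N := fun N => by
    rw [← eq_iff_iff]; exact hR.map_mod_nat N
  refine Finset.card_bij (fun N _ => (N % a, N % b)) ?_ ?_ ?_
  · intro N hN
    rw [Finset.mem_filter, Finset.mem_range] at hN
    rw [Finset.mem_product, Finset.mem_filter, Finset.mem_filter, Finset.mem_range,
      Finset.mem_range]
    exact ⟨⟨Nat.mod_lt _ ha, (hPm N).2 hN.2.1⟩, Nat.mod_lt _ hb, (hRm N).2 hN.2.2⟩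
  · intro N hN M hM he
    rw [Finset.mem_filter, Finset.mem_range] at hN hM
    rw [Prod.mk.injEq] at he
    have h1 : N ≡ M [MOD a * b] := (Nat.modEq_and_modEq_iff_modEq_mul hab).1 ⟨he.1, he.2⟩
    have h2 := h1
    unfold Nat.ModEq at h2
    rwa [Nat.mod_eq_of_lt hN.1, Nat.mod_eq_of_lt hM.1] at h2
  · rintro ⟨x, y⟩ hxy
    rw [Finset.mem_product, Finset.mem_filter, Finset.mem_filter, Finset.mem_range,
      Finset.mem_range] at hxy
    obtain ⟨⟨hx, hPx⟩, hy, hRy⟩ := hxy
    obtain ⟨z, h1, h2⟩ : ∃ z, (z ≡ x [MOD a] ∧ z ≡ y [MOD b]) ∧ z < a * b :=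
      ⟨_, (Nat.chineseRemainder hab x y).2, Nat.chineseRemainder_lt_mul hab x y ha.ne' hb.ne'⟩
    have e1 : z % a = x := by
      have := h1.1
      unfold Nat.ModEq at this
      rwa [Nat.mod_eq_of_lt hx] at this
    have e2 : z % b = y := by
      have := h1.2
      unfold Nat.ModEq at this
      rwa [Nat.mod_eq_of_lt hy] at this
    refine ⟨z, ?_, by rw [e1, e2]⟩
    rw [Finset.mem_filter, Finset.mem_range]
    refine ⟨h2, ?_, ?_⟩
    · rw [← hPm, e1]; exact hPx
    · rw [← hRm, e2]; exact hRy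

/-- The prime conditions. -/
def CC (K : ℕ) (S : Finset ℕ) (N : ℕ) : Prop := ∀ p ∈ S, K ≤ N % p

instance (K : ℕ) (S : Finset ℕ) : DecidablePred (CC K S) := fun _ => by
  unfold CC; infer_instance

theorem CC_periodic (K : ℕ) (S : Finset ℕ) {T : ℕ} (hT : ∀ p ∈ S, p ∣ T) :
    Function.Periodic (CC K S) T := by
  intro N
  rw [eq_iff_iff]
  unfold CC
  refine forall_congr' fun p => forall_congr' fun hp => ?_
  obtain ⟨t, ht⟩ := hT p hp
  rw [ht, Nat.add_mul_mod_self_left]

theorem prod_coprime {S : Finset ℕ} (hS : ∀ p ∈ S, p.Prime) {p : ℕ} (hp : p.Prime) (hpS : p ∉ S) :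
    p.Coprime (∏ q ∈ S, q) := by
  refine Nat.Coprime.prod_right fun q hq => ?_
  exact (Nat.coprime_primes hp (hS q hq)).2 (fun h => hpS (h ▸ hq))

theorem count_CC (K : ℕ) (S : Finset ℕ) (hS : ∀ p ∈ S, p.Prime) :
    Nat.count (CC K S) (∏ p ∈ S, p) = ∏ p ∈ S, (p - K) := by
  classical
  induction S using Finset.induction_on with
  | empty =>
    rw [Finset.prod_empty, Finset.prod_empty, Nat.count_eq_card_filter_range, Finset.card_eq_one]
    refine ⟨0, ?_⟩
    ext N
    rw [Finset.mem_filter, Finset.mem_range, Finset.mem_singleton]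
    constructor
    · rintro ⟨h, _⟩; omega
    · rintro rfl; exact ⟨by omega, fun p hp => absurd hp (Finset.notMem_empty p)⟩
  | insert p S hpS ih =>
    have hp := hS p (Finset.mem_insert_self _ _)
    have hS' : ∀ q ∈ S, q.Prime := fun q hq => hS q (Finset.mem_insert_of_mem hq)
    rw [Finset.prod_insert hpS, Finset.prod_insert hpS, ← ih hS']
    have h1 : Nat.count (CC K (insert p S)) (p * ∏ q ∈ S, q) =
        Nat.count (fun N => CC K {p} N ∧ CC K S N) (p * ∏ q ∈ S, q) := by
      rw [Nat.count_eq_card_filter_range, Nat.count_eq_card_filter_range]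
      congr 1
      refine Finset.filter_congr fun N _ => ?_
      unfold CC
      simp
    rw [h1, count_mul hp.pos (Finset.prod_pos fun q hq => (hS' q hq).pos)
      (prod_coprime hS' hp hpS) (CC_periodic K {p} (by simp))
      (CC_periodic K S fun q hq => Finset.dvd_prod_of_mem _ hq)]
    congr 1
    rw [Nat.count_eq_card_filter_range]
    have : (range p).filter (CC K {p}) = Finset.Ico K p := by
      ext N
      rw [Finset.mem_filter, Finset.mem_range, Finset.mem_Ico]
      unfold CC
      simp only [Finset.mem_singleton, forall_eq]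
      constructor
      · rintro ⟨h1, h2⟩; rw [Nat.mod_eq_of_lt h1] at h2; exact ⟨h2, h1⟩
      · rintro ⟨h1, h2⟩; rw [Nat.mod_eq_of_lt h2]; exact ⟨h2, h1⟩
    rw [this, Nat.card_Ico]

/-- The primes in `(K, K + r]`. -/
def Sp (K r : ℕ) : Finset ℕ := (Finset.Ioc K (K + r)).filter Nat.Prime

theorem mem_Sp {K r p : ℕ} : p ∈ Sp K r ↔ (K < p ∧ p ≤ K + r) ∧ p.Prime := by
  simp [Sp]

/-- The product of `1 - K / p` over the primes `K < p ≤ K + r`. -/
noncomputable def W (K r : ℕ) : ℝ := ∏ p ∈ Sp K r, (1 - (K : ℝ) / p)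

theorem count_CC_div (K r : ℕ) :
    (Nat.count (CC K (Sp K r)) (∏ p ∈ Sp K r, p) : ℝ) / ((∏ p ∈ Sp K r, p : ℕ) : ℝ) = W K r := by
  rw [count_CC K _ (fun p hp => (mem_Sp.1 hp).2), W]
  push_cast
  rw [← Finset.prod_div_distrib]
  refine Finset.prod_congr rfl fun p hp => ?_
  have h := mem_Sp.1 hp
  have hp0 : (0 : ℝ) < p := by exact_mod_cast h.2.pos
  rw [Nat.cast_sub h.1.1.le]
  field_simp

theorem prod_pos (K r : ℕ) : 0 < ∏ p ∈ Sp K r, p :=
  Finset.prod_pos fun p hp => (mem_Sp.1 hp).2.pos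

theorem CC_tendsto (K r : ℕ) :
    Tendsto (fun X : ℕ => (Nat.count (CC K (Sp K r)) X : ℝ) / X) atTop (𝓝 (W K r)) := by
  rw [← count_CC_div]
  exact periodic_density _ _ (prod_pos K r)
    (CC_periodic K _ fun p hp => Finset.dvd_prod_of_mem _ hp)

open Classical in
/-- Upper bound for the density of `PQ`. -/
theorem dens_PQ_le (r k Q : ℕ) (hk : 1 ≤ k) :
    (Nat.count (PQ r k Q) (perQ r Q) : ℝ) / perQ r Q ≤ ∑ K ∈ Finset.Icc k Q, W K r := by
  have h1 := periodic_density (PQ r k Q) (perQ r Q) (perQ_pos r Q) (PQ_periodic r k Q)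
  have h2 : Tendsto (fun X : ℕ => ∑ K ∈ Finset.Icc k Q, (Nat.count (CC K (Sp K r)) X : ℝ) / X)
      atTop (𝓝 (∑ K ∈ Finset.Icc k Q, W K r)) := tendsto_finsetSum _ fun K _ => CC_tendsto K r
  refine le_of_tendsto_of_tendsto' h1 h2 fun X => ?_
  rw [← Finset.sum_div]
  refine div_le_div_of_nonneg_right ?_ (by positivity)
  have h3 : Nat.count (PQ r k Q) X ≤ ∑ K ∈ Finset.Icc k Q, Nat.count (CC K (Sp K r)) X := by
    simp only [Nat.count_eq_card_filter_range]
    refine (Finset.card_le_card ?_).trans Finset.card_biUnion_le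
    intro N hN
    rw [Finset.mem_filter, Finset.mem_range] at hN
    obtain ⟨hX, K, hkK, hKQ, hD⟩ := hN
    rw [Finset.mem_biUnion]
    refine ⟨K, Finset.mem_Icc.2 ⟨hkK, hKQ⟩, ?_⟩
    rw [Finset.mem_filter, Finset.mem_range]
    refine ⟨hX, fun p hp => ?_⟩
    have h := mem_Sp.1 hp
    exact DD_imp (by omega) hD h.2 h.1.1 h.1.2
  exact_mod_cast h3

/-- The sufficient residue conditions. -/
def LL (k r N : ℕ) : Prop := N % (k.factorial * k.factorial) = k % (k.factorial * k.factorial) ∧
  CC k (Sp k r) N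

instance (k r : ℕ) : DecidablePred (LL k r) := fun _ => by unfold LL; infer_instance

theorem LL_count (k r : ℕ) :
    Nat.count (LL k r) ((k.factorial * k.factorial) * ∏ p ∈ Sp k r, p) =
      Nat.count (CC k (Sp k r)) (∏ p ∈ Sp k r, p) := by
  have hf : 0 < k.factorial * k.factorial := Nat.mul_pos (Nat.factorial_pos k) (Nat.factorial_pos k)
  have hcop : (k.factorial * k.factorial).Coprime (∏ p ∈ Sp k r, p) := by
    refine Nat.Coprime.prod_right fun p hp => ?_
    have h := mem_Sp.1 hp
    have h1 : Nat.Coprime k.factorial p :=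
      ((Nat.Prime.coprime_iff_not_dvd h.2).2 (fun h2 => by
        have := (h.2.dvd_factorial).1 h2
        omega)).symm
    exact Nat.Coprime.mul_left h1 h1
  have h1 := count_mul (P := fun N => N % (k.factorial * k.factorial) =
    k % (k.factorial * k.factorial)) hf (prod_pos k r) hcop (by
      intro N; simp) (CC_periodic k (Sp k r) fun p hp => Finset.dvd_prod_of_mem _ hp)
  have h2 : Nat.count (fun N => N % (k.factorial * k.factorial) =
      k % (k.factorial * k.factorial)) (k.factorial * k.factorial) = 1 := by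
    rw [Nat.count_eq_card_filter_range, Finset.card_eq_one]
    refine ⟨k % (k.factorial * k.factorial), ?_⟩
    ext N
    rw [Finset.mem_filter, Finset.mem_range, Finset.mem_singleton]
    constructor
    · rintro ⟨h3, h4⟩; rwa [Nat.mod_eq_of_lt h3] at h4
    · intro h3
      have h4 : N < k.factorial * k.factorial := by rw [h3]; exact Nat.mod_lt _ hf
      exact ⟨h4, by rw [Nat.mod_eq_of_lt h4, h3]⟩
  rw [h2, one_mul] at h1
  exact h1

theorem LL_tendsto (k r : ℕ) :
    Tendsto (fun X : ℕ => (Nat.count (LL k r) X : ℝ) / X) atTop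
      (𝓝 (W k r / ((k.factorial : ℝ) * k.factorial))) := by
  have hf : 0 < k.factorial * k.factorial := Nat.mul_pos (Nat.factorial_pos k) (Nat.factorial_pos k)
  have h1 := periodic_density (LL k r) ((k.factorial * k.factorial) * ∏ p ∈ Sp k r, p)
    (Nat.mul_pos hf (prod_pos k r)) (by
      intro N
      rw [eq_iff_iff]
      unfold LL
      refine and_congr ?_ ?_
      · rw [Nat.add_mul_mod_self_left]
      · exact eq_iff_iff.1 (CC_periodic k (Sp k r) (fun p hp =>
          dvd_mul_of_dvd_right (Finset.dvd_prod_of_mem _ hp) _) N))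
  rw [LL_count] at h1
  have h2 : (Nat.count (CC k (Sp k r)) (∏ p ∈ Sp k r, p) : ℝ) /
      (((k.factorial * k.factorial) * ∏ p ∈ Sp k r, p : ℕ) : ℝ) =
      W k r / ((k.factorial : ℝ) * k.factorial) := by
    rw [← count_CC_div]
    push_cast
    rw [div_div, mul_comm ((k.factorial : ℝ) * k.factorial)]
  rw [h2] at h1
  exact h1

open Classical in
/-- Lower bound for the density. -/
theorem le_delta {r k : ℕ} {δ : ℝ}
    (hδ : Tendsto (fun X : ℕ => (Nat.count (BB r k) X : ℝ) / X) atTop (𝓝 δ)) :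
    W k r / ((k.factorial : ℝ) * k.factorial) ≤ δ := by
  have h1 := LL_tendsto k r
  have h2 : Tendsto (fun X : ℕ => (Nat.count (BB r k) X : ℝ) / X + ((k + 1 : ℕ) : ℝ) / (X : ℝ))
      atTop (𝓝 (δ + 0)) := hδ.add (tendsto_const_div_atTop_nhds_zero_nat _)
  rw [add_zero] at h2
  refine le_of_tendsto_of_tendsto' h1 h2 fun X => ?_
  rw [← add_div]
  refine div_le_div_of_nonneg_right ?_ (by positivity)
  have h3 : Nat.count (LL k r) X ≤ Nat.count (BB r k) X + (k + 1) := by
    rw [Nat.count_eq_card_filter_range, Nat.count_eq_card_filter_range]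
    have : (range X).filter (LL k r) ⊆ (range X).filter (BB r k) ∪ range (k + 1) := by
      intro N hN
      rw [Finset.mem_filter, Finset.mem_range] at hN
      rw [Finset.mem_union, Finset.mem_filter, Finset.mem_range, Finset.mem_range]
      rcases le_or_gt N k with h | h
      · right; omega
      · left
        refine ⟨hN.1, k, le_rfl, h, ?_⟩
        refine DD_of_residues h.le hN.2.1 fun p hp h1 h2 => ?_
        exact hN.2.2 p (mem_Sp.2 ⟨⟨h1, h2⟩, hp⟩)
    refine (Finset.card_le_card this).trans ((Finset.card_union_le _ _).trans ?_)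
    rw [Finset.card_range]
  exact_mod_cast h3

end Pool.Agent.Q16.StD
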