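import Mathlib

/-!
# Necessity of the divisibility conditions
-/

set_option autoImplicit false

namespace Pool.Agent.Q16.StD

open Finset

theorem card_superset {α : Type*} [DecidableEq α] (U I : Finset α) (hI : I ⊆ U) {r : ℕ}
    (hr : I.card ≤ r) :
    ((powersetCard r U).filter (fun T => I ⊆ T)).card = (U.card - I.card).choose (r - I.card) := by
  rw [← Finset.card_sdiff_of_subset hI, ← Finset.card_powersetCard]
  refine Finset.card_nbij' (fun T => T \ I) (fun T => T ∪ I) ?_ ?_ ?_ ?_
  · intro T hT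
    simp only [Finset.coe_filter, Finset.mem_powersetCard, Set.mem_ofPred_eq, Finset.mem_coe] at hT ⊢
    obtain ⟨⟨h1, h2⟩, h3⟩ := hT
    refine ⟨Finset.sdiff_subset_sdiff h1 le_rfl, ?_⟩
    rw [Finset.card_sdiff_of_subset h3, h2]
  · intro T hT
    simp only [Finset.coe_filter, Finset.mem_powersetCard, Set.mem_ofPred_eq, Finset.mem_coe] at hT ⊢
    obtain ⟨h1, h2⟩ := hT
    have hd : Disjoint T I := Finset.disjoint_of_subset_left h1 Finset.sdiff_disjoint
    refine ⟨⟨Finset.union_subset (h1.trans Finset.sdiff_subset) hI, ?_⟩,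
      Finset.subset_union_right⟩
    rw [Finset.card_union_of_disjoint hd, h2]; omega
  · intro T hT
    simp only [Finset.coe_filter, Finset.mem_powersetCard, Set.mem_ofPred_eq] at hT
    exact Finset.sdiff_union_of_subset hT.2
  · intro T hT
    simp only [Finset.mem_coe, Finset.mem_powersetCard] at hT
    have hd : Disjoint T I := Finset.disjoint_of_subset_left hT.1 Finset.sdiff_disjoint
    exact Finset.union_sdiff_cancel_right hd

/-- (D) is necessary. -/
theorem necessary {n q r : ℕ} (B : Finset (Finset (Fin n))) (hB : ∀ b ∈ B, b.card = q)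
    (hS : ∀ T : Finset (Fin n), T.card = r → ∃! b, b ∈ B ∧ T ⊆ b) (hrn : r ≤ n) {i : ℕ}
    (hi : i < r) : (q - i).choose (r - i) ∣ (n - i).choose (r - i) := by
  classical
  obtain ⟨I, -, hI⟩ := Finset.exists_subset_card_eq
    (show i ≤ (Finset.univ : Finset (Fin n)).card by rw [Finset.card_univ, Fintype.card_fin]; omega)
  set 𝒯 := (powersetCard r (Finset.univ : Finset (Fin n))).filter (fun T => I ⊆ T) with h𝒯
  have h1 : 𝒯.card = (n - i).choose (r - i) := by
    rw [h𝒯, card_superset _ I (Finset.subset_univ _) (by omega), Finset.card_univ,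
      Fintype.card_fin, hI]
  have h2 := Finset.sum_card_bipartiteAbove_eq_sum_card_bipartiteBelow
    (s := 𝒯) (t := B) (fun T b => T ⊆ b)
  have h3 : ∑ T ∈ 𝒯, (B.bipartiteAbove (fun T b => T ⊆ b) T).card = 𝒯.card := by
    rw [Finset.card_eq_sum_ones]
    refine Finset.sum_congr rfl fun T hT => ?_
    rw [h𝒯, Finset.mem_filter, Finset.mem_powersetCard] at hT
    obtain ⟨b, hb, hu⟩ := hS T hT.1.2
    rw [Finset.card_eq_one]
    refine ⟨b, ?_⟩
    ext b'
    rw [Finset.mem_bipartiteAbove, Finset.mem_singleton]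
    constructor
    · rintro ⟨h4, h5⟩; exact hu b' ⟨h4, h5⟩
    · rintro rfl; exact hb
  rw [← h1, ← h3, h2]
  refine Finset.dvd_sum fun b hb => ?_
  by_cases hIb : I ⊆ b
  · have h4 : 𝒯.bipartiteBelow (fun T b => T ⊆ b) b =
        (powersetCard r b).filter (fun T => I ⊆ T) := by
      ext T
      rw [Finset.mem_bipartiteBelow, h𝒯, Finset.mem_filter, Finset.mem_filter,
        Finset.mem_powersetCard, Finset.mem_powersetCard]
      constructor
      · rintro ⟨⟨⟨_, h5⟩, h6⟩, h7⟩; exact ⟨⟨h7, h5⟩, h6⟩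
      · rintro ⟨⟨h7, h5⟩, h6⟩; exact ⟨⟨⟨Finset.subset_univ _, h5⟩, h6⟩, h7⟩
    rw [h4, card_superset b I hIb (by omega), hI, hB b hb]
  · have h4 : 𝒯.bipartiteBelow (fun T b => T ⊆ b) b = ∅ := by
      rw [Finset.eq_empty_iff_forall_notMem]
      intro T hT
      rw [Finset.mem_bipartiteBelow, h𝒯, Finset.mem_filter] at hT
      exact hIb (hT.1.2.trans hT.2)
    rw [h4, Finset.card_empty]
    exact dvd_zero _

end Pool.Agent.Q16.StD
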