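import Pool.Agent.Q16.StD.Asym

/-!
# Rate of decay of the densities
-/

set_option autoImplicit false

namespace Pool.Agent.Q16.StD

open Finset Filter Topology

theorem W_bound : ∃ C : ℝ, 0 < C ∧ ∀ K r : ℕ, 1 ≤ K → 2 ≤ r →
    W K r ≤ (C * (1 + Real.log K) / Real.log r) ^ K := by
  obtain ⟨C1, hC1, h1⟩ := V_lower
  obtain ⟨C2, hC2, h2⟩ := V_upper
  refine ⟨C2 * C1, by positivity, fun K r hK hr => ?_⟩
  refine (W_le K r).trans (pow_le_pow_left₀ (div_nonneg (V_pos _).le (V_pos _).le) ?_ K)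
  have h3 : V (K + r) ≤ C2 / Real.log r := (V_anti (by omega)).trans (h2 r hr)
  have h4 := h1 K hK
  have hl := log_pos_nat hr
  have hlK : 0 ≤ Real.log K := Real.log_natCast_nonneg K
  calc V (K + r) / V K = V (K + r) * (V K)⁻¹ := div_eq_mul_inv _ _
    _ ≤ (C2 / Real.log r) * (C1 * (1 + Real.log K)) :=
        mul_le_mul h3 h4 (inv_pos.2 (V_pos K)).le (by positivity)
    _ = _ := by ring

theorem geom_bound {Z : ℝ} (h0 : 0 ≤ Z) (h1 : Z ≤ 1 / 2) (k n : ℕ) :
    ∑ K ∈ Finset.Ioc k (k + n), Z ^ K ≤ 2 * Z ^ (k + 1) - 2 * Z ^ (k + n + 1) := by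
  induction n with
  | zero => simp
  | succ n ih =>
    rw [← add_assoc, Finset.sum_Ioc_succ_top (by omega)]
    have h2 : Z ^ (k + n + 1 + 1) = Z ^ (k + n + 1) * Z := pow_succ _ _
    have h3 : 0 ≤ Z ^ (k + n + 1) := by positivity
    rw [h2]
    nlinarith

theorem geom_bound' {Z : ℝ} (h0 : 0 ≤ Z) (h1 : Z ≤ 1 / 2) (k Q : ℕ) :
    ∑ K ∈ Finset.Ioc k Q, Z ^ K ≤ 2 * Z ^ (k + 1) := by
  rcases le_or_gt k Q with h | h
  · obtain ⟨n, rfl⟩ := Nat.exists_eq_add_of_le h
    have := geom_bound h0 h1 k n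
    have h3 : 0 ≤ Z ^ (k + n + 1) := by positivity
    linarith
  · rw [Finset.Ioc_eq_empty (by omega), Finset.sum_empty]; positivity

/-- The error function. -/
noncomputable def RR (k : ℕ) (C L : ℝ) : ℝ :=
  L ^ k * (2 * (C * (1 + (k + 1) * Real.log L) / L) ^ (k + 1)) +
    (20 + 4 * (k + 1) * Real.log L) / L

theorem log_pow_div (n : ℕ) : Tendsto (fun L : ℝ => Real.log L ^ n / L) atTop (𝓝 0) :=
  (Real.isLittleO_pow_log_id_atTop (n := n)).tendsto_div_nhds_zero

theorem one_add_log_div (a : ℝ) (n : ℕ) :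
    Tendsto (fun L : ℝ => (1 + a * Real.log L) ^ n / L) atTop (𝓝 0) := by
  have h : ∀ L : ℝ, (1 + a * Real.log L) ^ n / L =
      ∑ m ∈ Finset.range (n + 1), ((a ^ (n - m) * (n.choose m : ℝ)) *
        (Real.log L ^ (n - m) / L)) := by
    intro L
    rw [add_pow, Finset.sum_div]
    refine Finset.sum_congr rfl fun m _ => ?_
    rw [one_pow, one_mul, mul_pow]; ring
  simp_rw [h]
  have h2 : Tendsto (fun L : ℝ => ∑ m ∈ Finset.range (n + 1), ((a ^ (n - m) * (n.choose m : ℝ)) *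
        (Real.log L ^ (n - m) / L))) atTop
        (𝓝 (∑ m ∈ Finset.range (n + 1), ((a ^ (n - m) * (n.choose m : ℝ)) * 0))) :=
    tendsto_finsetSum _ fun m _ => (log_pow_div (n - m)).const_mul _
  simpa using h2

theorem RR_tendsto (k : ℕ) (C : ℝ) : Tendsto (RR k C) atTop (𝓝 0) := by
  have h1 : Tendsto (fun L : ℝ => (2 * C ^ (k + 1)) *
      ((1 + (k + 1 : ℝ) * Real.log L) ^ (k + 1) / L)) atTop (𝓝 ((2 * C ^ (k + 1)) * 0)) :=
    (one_add_log_div (k + 1 : ℝ) (k + 1)).const_mul _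
  have h2 : Tendsto (fun L : ℝ => 20 * (Real.log L ^ 0 / L) + (4 * (k + 1 : ℝ)) *
      (Real.log L ^ 1 / L)) atTop (𝓝 (20 * 0 + (4 * (k + 1 : ℝ)) * 0)) :=
    ((log_pow_div 0).const_mul _).add ((log_pow_div 1).const_mul _)
  have h3 := h1.add h2
  simp only [mul_zero, add_zero] at h3
  refine h3.congr' ?_
  filter_upwards [eventually_gt_atTop 0] with L hL
  unfold RR
  rw [div_pow, mul_pow]
  field_simp
  ring

theorem key_bound (k : ℕ) {C : ℝ} (hC : 0 < C) : ∀ᶠ L : ℝ in atTop,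
    L ^ k * (∑ K ∈ Finset.Ioc k ⌊L ^ (k + 1)⌋₊, (C * (1 + Real.log K) / L) ^ K +
      eta (⌊L ^ (k + 1)⌋₊ + 2)) ≤ RR k C L := by
  have hZ : Tendsto (fun L : ℝ => C * (1 + (k + 1 : ℝ) * Real.log L) / L) atTop (𝓝 0) := by
    have := (one_add_log_div (k + 1 : ℝ) 1).const_mul C
    simp only [pow_one, mul_zero] at this
    refine this.congr fun L => ?_
    ring
  filter_upwards [(tendsto_order.1 hZ).2 (1 / 2) (by norm_num), eventually_ge_atTop 1] with L hZL hL
  have hL0 : 0 < L := by linarith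
  have hlog : 0 ≤ Real.log L := Real.log_nonneg hL
  set Z := C * (1 + (k + 1 : ℝ) * Real.log L) / L with hZd
  have hZ0 : 0 ≤ Z := by positivity
  set Q := ⌊L ^ (k + 1)⌋₊ with hQ
  have hQL : (Q : ℝ) ≤ L ^ (k + 1) := Nat.floor_le (by positivity)
  have hQL' : L ^ (k + 1) < Q + 1 := Nat.lt_floor_add_one _
  have h1 : ∑ K ∈ Finset.Ioc k Q, (C * (1 + Real.log K) / L) ^ K ≤ 2 * Z ^ (k + 1) := by
    refine le_trans (Finset.sum_le_sum fun K hK => ?_) (geom_bound' hZ0 hZL.le k Q)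
    have hK' := Finset.mem_Ioc.1 hK
    have hlK : 0 ≤ Real.log K := Real.log_natCast_nonneg K
    refine pow_le_pow_left₀ (by positivity) ?_ K
    have hKL : Real.log K ≤ (k + 1 : ℝ) * Real.log L := by
      have : Real.log K ≤ Real.log (L ^ (k + 1)) := by
        refine Real.log_le_log (by exact_mod_cast (by omega : 0 < K)) ?_
        exact le_trans (by exact_mod_cast hK'.2) hQL
      rw [Real.log_pow] at this
      push_cast at this
      exact this
    rw [hZd]
    gcongr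
  have h2 : eta (Q + 2) ≤ (20 + 4 * (k + 1) * Real.log L) / L ^ (k + 1) := by
    unfold eta
    have hLk : (1 : ℝ) ≤ L ^ (k + 1) := one_le_pow₀ hL
    have h3 : Real.log ((Q + 2 : ℕ) : ℝ) ≤ 2 + (k + 1) * Real.log L := by
      have h4 : ((Q + 2 : ℕ) : ℝ) ≤ 3 * L ^ (k + 1) := by push_cast; linarith
      have h5 : Real.log ((Q + 2 : ℕ) : ℝ) ≤ Real.log (3 * L ^ (k + 1)) :=
        Real.log_le_log (by positivity) h4
      rw [Real.log_mul (by norm_num) (by positivity), Real.log_pow] at h5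
      have h6 : Real.log 3 ≤ 2 := by
        have := Real.log_le_sub_one_of_pos (by norm_num : (0 : ℝ) < 3)
        linarith
      push_cast at h5 ⊢
      linarith
    have h7 : L ^ (k + 1) ≤ ((Q + 2 : ℕ) : ℝ) := by push_cast; linarith
    rw [div_le_div_iff₀ (by positivity) (by positivity)]
    have h8 : 12 + 4 * Real.log ((Q + 2 : ℕ) : ℝ) ≤ 20 + 4 * (k + 1) * Real.log L := by linarith
    have h9 : 0 ≤ 20 + 4 * (k + 1) * Real.log L := by positivity
    calc (12 + 4 * Real.log ((Q + 2 : ℕ) : ℝ)) * L ^ (k + 1)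
        ≤ (20 + 4 * (k + 1) * Real.log L) * L ^ (k + 1) :=
          mul_le_mul_of_nonneg_right h8 (by positivity)
      _ ≤ (20 + 4 * (k + 1) * Real.log L) * ((Q + 2 : ℕ) : ℝ) :=
          mul_le_mul_of_nonneg_left h7 h9
  have h10 : L ^ k * ((20 + 4 * (k + 1) * Real.log L) / L ^ (k + 1)) =
      (20 + 4 * (k + 1) * Real.log L) / L := by
    rw [pow_succ]; field_simp
  calc _ ≤ L ^ k * (2 * Z ^ (k + 1) + (20 + 4 * (k + 1) * Real.log L) / L ^ (k + 1)) :=
        mul_le_mul_of_nonneg_left (add_le_add h1 h2) (by positivity)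
    _ = RR k C L := by rw [mul_add, h10, RR]

theorem log_tendsto : Tendsto (fun r : ℕ => Real.log r) atTop atTop :=
  Real.tendsto_log_atTop.comp tendsto_natCast_atTop_atTop

open Classical in
/-- `δ` is the approximate density. -/
def IsDelta (r k : ℕ) (δ : ℝ) : Prop :=
  Tendsto (fun X : ℕ => (Nat.count (BB r k) X : ℝ) / X) atTop (𝓝 δ) ∧
    ∀ Q, |δ - (Nat.count (PQ r k Q) (perQ r Q) : ℝ) / perQ r Q| ≤ eta (Q + 2)

theorem delta_upper {k : ℕ} (hk : 1 ≤ k) : ∃ E : ℕ → ℝ, Tendsto E atTop (𝓝 0) ∧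
    ∀ᶠ r : ℕ in atTop, ∀ δ, IsDelta r k δ →
      Real.log r ^ k * δ ≤ Real.log r ^ k * W k r + E r := by
  obtain ⟨C, hC, hW⟩ := W_bound
  refine ⟨fun r => RR k C (Real.log r), (RR_tendsto k C).comp log_tendsto, ?_⟩
  have h1 := log_tendsto.eventually (key_bound k hC)
  filter_upwards [h1, eventually_ge_atTop 2,
    log_tendsto.eventually (eventually_ge_atTop (k : ℝ)),
    log_tendsto.eventually (eventually_ge_atTop 1)] with r h2 hr hkL hL1 δ hδ
  set L := Real.log r with hL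
  set Q := ⌊L ^ (k + 1)⌋₊ with hQ
  have hkQ : k ≤ Q := by
    refine Nat.le_floor ?_
    calc (k : ℝ) ≤ L := hkL
      _ = L ^ 1 := (pow_one _).symm
      _ ≤ L ^ (k + 1) := pow_le_pow_right₀ hL1 (by omega)
  have h3 := abs_le.1 (hδ.2 Q)
  have h4 := dens_PQ_le r k Q hk
  have h5 : ∑ K ∈ Finset.Icc k Q, W K r = W k r + ∑ K ∈ Finset.Ioc k Q, W K r := by
    rw [← Finset.Ioc_insert_left hkQ, Finset.sum_insert (by simp)]
  have h6 : ∑ K ∈ Finset.Ioc k Q, W K r ≤
      ∑ K ∈ Finset.Ioc k Q, (C * (1 + Real.log K) / L) ^ K := by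
    refine Finset.sum_le_sum fun K hK => ?_
    have hK' := Finset.mem_Ioc.1 hK
    exact hW K r (by omega) hr
  have h7 : δ ≤ W k r + (∑ K ∈ Finset.Ioc k Q, (C * (1 + Real.log K) / L) ^ K + eta (Q + 2)) := by
    linarith [h3.2]
  have hL0 : 0 ≤ L ^ k := by positivity
  calc L ^ k * δ ≤ L ^ k * (W k r + (∑ K ∈ Finset.Ioc k Q, (C * (1 + Real.log K) / L) ^ K +
        eta (Q + 2))) := mul_le_mul_of_nonneg_left h7 hL0
    _ ≤ _ := by rw [mul_add]; linarith

theorem delta_nonneg {r k : ℕ} {δ : ℝ} (h : IsDelta r k δ) : 0 ≤ δ := by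
  have := le_delta h.1
  have h2 := W_nonneg k r
  exact le_trans (by positivity) this

theorem delta_le_one {r k : ℕ} {δ : ℝ} (h : IsDelta r k δ) : δ ≤ 1 := by
  classical
  refine le_of_tendsto' h.1 fun X => ?_
  rcases Nat.eq_zero_or_pos X with rfl | hX
  · simp
  · have hX0 : (0 : ℝ) < X := by exact_mod_cast hX
    rw [div_le_one hX0]
    have : Nat.count (BB r k) X ≤ X := Nat.count_le _
    exact_mod_cast this

theorem delta_order {k : ℕ} (hk : 1 ≤ k) : ∃ c C : ℝ, 0 < c ∧ ∀ r : ℕ, 2 ≤ r → ∀ δ,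
    IsDelta r k δ → c / Real.log r ^ k ≤ δ ∧ δ ≤ C / Real.log r ^ k := by
  obtain ⟨C1, hC1, h1⟩ := V_lower
  obtain ⟨C2, hC2, h2⟩ := W_bound
  obtain ⟨E, hE, hE2⟩ := delta_upper hk
  -- lower bound
  obtain ⟨b, hb⟩ : ∃ b : ℝ, b = 1 + (1 + Real.log (k + 1)) / Real.log 2 := ⟨_, rfl⟩
  have hlog2 : 0 < Real.log 2 := Real.log_pos (by norm_num)
  have hlk : 0 ≤ Real.log ((k : ℝ) + 1) := Real.log_nonneg (by linarith [Nat.cast_nonneg (α := ℝ) k])
  have hb0 : 0 < b := by rw [hb]; positivity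
  have hV : ∀ r : ℕ, 2 ≤ r → (C1 * b * Real.log r)⁻¹ ≤ V (k + r) := by
    intro r hr
    have hl := log_pos_nat hr
    have h3 := h1 (k + r) (by omega)
    have h4 : 1 + Real.log ((k + r : ℕ) : ℝ) ≤ b * Real.log r := by
      have h5 : Real.log ((k + r : ℕ) : ℝ) ≤ Real.log (((k : ℝ) + 1) * r) := by
        refine Real.log_le_log (by exact_mod_cast (by omega : 0 < k + r)) ?_
        push_cast
        have hr1 : (1 : ℝ) ≤ r := by exact_mod_cast (by omega : 1 ≤ r)
        have hk0 : (0 : ℝ) ≤ k := by positivity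
        nlinarith
      have hr0 : (r : ℝ) ≠ 0 := by exact_mod_cast (by omega : r ≠ 0)
      rw [Real.log_mul (by positivity) hr0] at h5
      have h6 : Real.log 2 ≤ Real.log r := Real.log_le_log (by norm_num) (by exact_mod_cast hr)
      have h7 : 1 + Real.log ((k : ℝ) + 1) ≤
          (1 + Real.log ((k : ℝ) + 1)) / Real.log 2 * Real.log r := by
        rw [div_mul_eq_mul_div, le_div_iff₀ hlog2]
        exact mul_le_mul_of_nonneg_left h6 (by positivity)
      rw [hb]
      linarith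
    have h8 : (V (k + r))⁻¹ ≤ C1 * b * Real.log r := by
      calc (V (k + r))⁻¹ ≤ C1 * (1 + Real.log ((k + r : ℕ) : ℝ)) := h3
        _ ≤ C1 * (b * Real.log r) := mul_le_mul_of_nonneg_left h4 hC1.le
        _ = _ := by ring
    rw [inv_le_comm₀ (by positivity) (V_pos _)]
    exact h8
  -- upper bound for large r
  obtain ⟨N, hN⟩ := eventually_atTop.1 (hE2.and ((tendsto_order.1 hE).2 1 (by norm_num)))
  have hlK : 0 ≤ Real.log k := Real.log_natCast_nonneg k
  refine ⟨(C1 * b)⁻¹ ^ k * Real.exp (-(2 * (k : ℝ) ^ 2)) / ((k.factorial : ℝ) * k.factorial),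
    (C2 * (1 + Real.log k)) ^ k + 1 + |Real.log N| ^ k, by positivity, ?_⟩
  intro r hr δ hδ
  have hl := log_pos_nat hr
  have hlk0 : 0 < Real.log r ^ k := by positivity
  constructor
  · refine le_trans ?_ (le_delta hδ.1)
    rw [div_div, mul_comm ((k.factorial : ℝ) * k.factorial), ← div_div]
    refine div_le_div_of_nonneg_right ?_ (by positivity)
    refine le_trans ?_ (W_ge k r)
    have h3 := pow_le_pow_left₀ (by positivity) (hV r hr) k
    have h4 : (C1 * b * Real.log r)⁻¹ ^ k = (C1 * b)⁻¹ ^ k / Real.log r ^ k := by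
      rw [mul_inv, mul_pow, inv_pow (Real.log r), div_eq_mul_inv]
    rw [h4] at h3
    calc (C1 * b)⁻¹ ^ k * Real.exp (-(2 * (k : ℝ) ^ 2)) / Real.log r ^ k
        = ((C1 * b)⁻¹ ^ k / Real.log r ^ k) * Real.exp (-(2 * (k : ℝ) ^ 2)) := by ring
      _ ≤ _ := mul_le_mul_of_nonneg_right h3 (Real.exp_pos _).le
  · rw [le_div_iff₀ hlk0, mul_comm]
    have h0 : 0 ≤ (C2 * (1 + Real.log k)) ^ k := by positivity
    rcases le_or_gt N r with h3 | h3
    · have h4 := (hN r h3).1 δ hδ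
      have h5 := (hN r h3).2
      have h6 : Real.log r ^ k * W k r ≤ (C2 * (1 + Real.log k)) ^ k := by
        have h7 := mul_le_mul_of_nonneg_left (h2 k r hk hr) hlk0.le
        rw [div_pow, mul_div_cancel₀ _ hlk0.ne'] at h7
        exact h7
      have h8 : 0 ≤ |Real.log N| ^ k := by positivity
      linarith
    · have h4 := delta_le_one hδ
      have h5 : Real.log r ≤ |Real.log N| :=
        (Real.log_le_log (by positivity) (by exact_mod_cast h3.le)).trans (le_abs_self _)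
      have h6 : Real.log r ^ k ≤ |Real.log N| ^ k := pow_le_pow_left₀ hl.le h5 k
      have h7 : Real.log r ^ k * δ ≤ Real.log r ^ k * 1 := mul_le_mul_of_nonneg_left h4 hlk0.le
      linarith

theorem V_succ_lim : Tendsto (fun r : ℕ => Real.log r * V (1 + r)) atTop
    (𝓝 (Real.exp (-Real.eulerMascheroniConstant))) := by
  have h1 : Tendsto (fun r : ℕ => V (r + 1) * Real.log (r + 1 : ℕ)) atTop
    (𝓝 (Real.exp (-Real.eulerMascheroniConstant))) := V_lim.comp (tendsto_add_atTop_nat 1)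
  have h2 : Tendsto (fun r : ℕ => V (r + 1) * (Real.log (r + 1 : ℕ) - Real.log r)) atTop
      (𝓝 0) := by
    have h3 : Tendsto (fun r : ℕ => 1 / (r : ℝ)) atTop (𝓝 0) :=
      tendsto_const_div_atTop_nhds_zero_nat 1
    refine squeeze_zero' ?_ ?_ h3
    · filter_upwards [eventually_ge_atTop 1] with r hr
      have : Real.log r ≤ Real.log (r + 1 : ℕ) :=
        Real.log_le_log (by exact_mod_cast hr) (by push_cast; linarith)
      exact mul_nonneg (V_pos _).le (by linarith)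
    · filter_upwards [eventually_ge_atTop 1] with r hr
      have hr0 : (0 : ℝ) < r := by exact_mod_cast hr
      have h4 : Real.log (r + 1 : ℕ) - Real.log r ≤ 1 / r := by
        rw [← Real.log_div (by positivity) hr0.ne']
        have := Real.log_le_sub_one_of_pos (show (0 : ℝ) < ((r + 1 : ℕ) : ℝ) / r by positivity)
        refine this.trans (le_of_eq ?_)
        push_cast; field_simp; ring
      have h5 : 0 ≤ Real.log (r + 1 : ℕ) - Real.log r := by
        have : Real.log r ≤ Real.log (r + 1 : ℕ) :=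
          Real.log_le_log hr0 (by push_cast; linarith)
        linarith
      calc V (r + 1) * (Real.log (r + 1 : ℕ) - Real.log r) ≤ 1 * (1 / r) :=
          mul_le_mul (V_le_one _) h4 h5 (by norm_num)
        _ = 1 / r := one_mul _
  have h3 := h1.sub h2
  rw [sub_zero] at h3
  refine h3.congr fun r => ?_
  rw [add_comm 1 r]; ring

theorem delta_one_lim (δ : ℕ → ℝ) (hδ : ∀ r, 2 ≤ r → IsDelta r 1 (δ r)) :
    Tendsto (fun r : ℕ => δ r * Real.log r) atTop
      (𝓝 (Real.exp (-Real.eulerMascheroniConstant))) := by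
  obtain ⟨E, hE, hE2⟩ := delta_upper (le_refl 1)
  have h1 := V_succ_lim
  have h2 := h1.add hE
  rw [add_zero] at h2
  refine tendsto_of_tendsto_of_tendsto_of_le_of_le' h1 h2 ?_ ?_
  · filter_upwards [eventually_ge_atTop 2] with r hr
    have h3 := le_delta (hδ r hr).1
    rw [W_one] at h3
    simp only [Nat.factorial_one, Nat.cast_one, mul_one, div_one] at h3
    rw [mul_comm]
    exact mul_le_mul_of_nonneg_right h3 (log_pos_nat hr).le
  · filter_upwards [eventually_ge_atTop 2, hE2] with r hr h3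
    have h4 := h3 (δ r) (hδ r hr)
    rw [W_one, pow_one] at h4
    rw [mul_comm]
    exact h4

end Pool.Agent.Q16.StD
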